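import Mathlib.Tactic

/-!
# 307 is not a sum of three generalized heptagonal numbers

So the answer to the question whether there is a nonnegative integer other than 10, 16 and 76 which is
not a sum of three generalized heptagonal numbers is yes.
-/

set_option autoImplicit false

namespace Pool.Agent.Results.MP_dc5ea1_nt.FurtherException

/-- The generalized heptagonal number with index `r`; the product `r (5 r - 3)` is always even. -/
def H (r : ℤ) : ℤ := r * (5 * r - 3) / 2

/-- `n` is a sum of three generalized heptagonal numbers (all indices range over all integers). -/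
def IsSumOfThree (n : ℕ) : Prop := ∃ a b c : ℤ, (n : ℤ) = H a + H b + H c

theorem even_prod (r : ℤ) : 2 ∣ r * (5 * r - 3) := by
  rcases Int.even_or_odd r with ⟨k, hk⟩ | ⟨k, hk⟩
  · exact Dvd.dvd.mul_right ⟨k, by omega⟩ _
  · exact Dvd.dvd.mul_left ⟨5 * k + 1, by omega⟩ _

theorem two_H (r : ℤ) : 2 * H r = r * (5 * r - 3) := by
  unfold H
  exact Int.mul_ediv_cancel' (even_prod r)

theorem H_nonneg (r : ℤ) : 0 ≤ H r := by
  have h := two_H r
  rcases le_or_gt r 0 with h0 | h0
  · nlinarith
  · nlinarith

theorem bound {r : ℤ} (h : H r ≤ 307) : -10 ≤ r ∧ r ≤ 11 := by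
  have h2 := two_H r
  constructor
  · by_contra hc
    push Not at hc
    nlinarith
  · by_contra hc
    push Not at hc
    nlinarith

theorem finite_check : ∀ a ∈ Finset.Icc (-10 : ℤ) 11, ∀ b ∈ Finset.Icc (-10 : ℤ) 11,
    ∀ c ∈ Finset.Icc (-10 : ℤ) 11, H a + H b + H c ≠ 307 := by
  decide +kernel

/-- Besides 10, 16 and 76 (which are not sums of three generalized heptagonal numbers) there is a further
nonnegative integer which is not a sum of three generalized heptagonal numbers, namely 307. -/
theorem result : ¬ IsSumOfThree 307 ∧ (307 ≠ 10 ∧ 307 ≠ 16 ∧ 307 ≠ 76) ∧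
    (∃ n : ℕ, n ≠ 10 ∧ n ≠ 16 ∧ n ≠ 76 ∧ ¬ IsSumOfThree n) := by
  have key : ¬ IsSumOfThree 307 := by
    rintro ⟨a, b, c, h⟩
    have ha := H_nonneg a
    have hb := H_nonneg b
    have hc := H_nonneg c
    push_cast at h
    obtain ⟨a1, a2⟩ := bound (r := a) (by linarith)
    obtain ⟨b1, b2⟩ := bound (r := b) (by linarith)
    obtain ⟨c1, c2⟩ := bound (r := c) (by linarith)
    exact finite_check a (Finset.mem_Icc.2 ⟨a1, a2⟩) b (Finset.mem_Icc.2 ⟨b1, b2⟩) c
      (Finset.mem_Icc.2 ⟨c1, c2⟩) h.symm
  exact ⟨key, by norm_num, 307, by norm_num, by norm_num, by norm_num, key⟩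

end Pool.Agent.Results.MP_dc5ea1_nt.FurtherException
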