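import Mathlib
import Pool.Agent.Q54.EF3

/-!
# A basis of order 2 with at least 1000 representations has numbers with at least 1064 representations

Method: the argument of Erdős and Fuchs.  If `k ≤ r(n) ≤ K` for all large `n`, then the square of the (damped)
generating function `f` of `A` is `c / (1 - z)` plus a power series with coefficients at most `(K - k) / 2` in
absolute value, where `c = (k + K) / 2`.  The mean value of `|f| ^ 2 = |f ^ 2|` over a circle of radius `ρ` is at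
least `√(k / (1 - ρ ^ 2))` up to a factor `1 + o(1)`, but at most
`O (log (1 / (1 - ρ))) + ((K - k) / 2) / √(1 - ρ ^ 2)`.  Hence `4 k ≤ (K - k) ^ 2`.  The mean values are taken over
roots of unity.
-/

set_option autoImplicit false

open Finset

namespace Pool.Agent.Results.MP_eaae5b_nt.ManyRepresentations

/-- The number of ordered pairs `(a₁, a₂)` of elements of `A` with `a₁ + a₂ = n`. -/
noncomputable def r (A : Set ℕ) (n : ℕ) : ℕ := {p : ℕ × ℕ | p.1 ∈ A ∧ p.2 ∈ A ∧ p.1 + p.2 = n}.ncard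

open Classical in
theorem r_eq (A : Set ℕ) (n : ℕ) :
    (r A n : ℝ) = Pool.Agent.Q54.EF.rr (fun a => if a ∈ A then 1 else 0) n := by
  unfold r Pool.Agent.Q54.EF.rr
  have h1 : {p : ℕ × ℕ | p.1 ∈ A ∧ p.2 ∈ A ∧ p.1 + p.2 = n} =
      (((antidiagonal n).filter (fun p => p.1 ∈ A ∧ p.2 ∈ A) : Finset (ℕ × ℕ)) : Set (ℕ × ℕ)) := by
    ext p
    simp only [Set.mem_ofPred_eq, coe_filter, HasAntidiagonal.mem_antidiagonal]
    tauto
  rw [h1, Set.ncard_coe_finset, card_filter]
  push_cast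
  apply sum_congr rfl
  intro p _
  by_cases h1 : p.1 ∈ A <;> by_cases h2 : p.2 ∈ A <;> simp [h1, h2]

theorem general (A : Set ℕ) (k n₀ : ℕ) (h : ∀ n, n₀ ≤ n → k ≤ r A n) (N : ℕ) :
    ∃ n, N ≤ n ∧ (k : ℝ) + 2 * √k ≤ r A n := by
  classical
  by_contra hcon
  push Not at hcon
  -- the largest integer below the bound
  have hb : ∃ K : ℕ, (K : ℝ) < k + 2 * √k ∧ ∀ n, N ≤ n → r A n ≤ K := by
    have hb1 : BddAbove {m : ℕ | ∃ n, N ≤ n ∧ m = r A n} := by
      refine ⟨⌈(k : ℝ) + 2 * √k⌉₊, ?_⟩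
      rintro m ⟨n, hn, rfl⟩
      have h1 := hcon n hn
      have h2 := Nat.le_ceil ((k : ℝ) + 2 * √k)
      exact_mod_cast (h1.trans_le h2).le
    have hne : {m : ℕ | ∃ n, N ≤ n ∧ m = r A n}.Nonempty := ⟨r A N, N, le_rfl, rfl⟩
    obtain ⟨n, hn, hK⟩ := Nat.sSup_mem hne hb1
    refine ⟨sSup {m : ℕ | ∃ n, N ≤ n ∧ m = r A n}, ?_, ?_⟩
    · rw [hK]
      exact hcon n hn
    · intro n' hn'
      exact le_csSup hb1 ⟨n', hn', rfl⟩
  obtain ⟨K, hK1, hK2⟩ := hb
  have hg := Pool.Agent.Q54.EF.gap (fun a => if a ∈ A then 1 else 0) (by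
    intro a
    by_cases ha : a ∈ A
    · right; simp [ha]
    · left; simp [ha]) (max n₀ N) (k : ℝ) (K : ℝ) (by positivity) (by
    intro n hn
    rw [← r_eq]
    exact ⟨by exact_mod_cast h n ((le_max_left _ _).trans hn),
      by exact_mod_cast hK2 n ((le_max_right _ _).trans hn)⟩)
  have hkK : (k : ℝ) ≤ K := by
    have h1 := h (max n₀ N) (le_max_left _ _)
    have h2 := hK2 (max n₀ N) (le_max_right _ _)
    exact_mod_cast h1.trans h2
  have h3 : ((K : ℝ) - k) ^ 2 < (2 * √k) ^ 2 := by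
    apply pow_lt_pow_left₀ _ _ (by norm_num)
    · linarith
    · linarith
  rw [mul_pow, Real.sq_sqrt (by positivity)] at h3
  linarith

/-- (1) If `A` is a set of nonnegative integers such that every sufficiently large integer has at least `1000`
representations as a sum of two elements of `A` (ordered pairs), then some integer has at least `1010`
representations (in fact infinitely many integers have at least `1064` representations).
(2) In general, if all sufficiently large integers have at least `k` representations, then infinitely many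
integers have at least `k + 2 √k` representations. -/
theorem result :
    (∀ A : Set ℕ, (∃ n₀ : ℕ, ∀ n, n₀ ≤ n → 1000 ≤ r A n) →
      (∃ n : ℕ, 1010 ≤ r A n) ∧ ∀ N : ℕ, ∃ n, N ≤ n ∧ 1064 ≤ r A n) ∧
    (∀ (A : Set ℕ) (k : ℕ), (∃ n₀ : ℕ, ∀ n, n₀ ≤ n → k ≤ r A n) →
      ∀ N : ℕ, ∃ n, N ≤ n ∧ (k : ℝ) + 2 * √k ≤ r A n) := by
  have key : ∀ A : Set ℕ, (∃ n₀ : ℕ, ∀ n, n₀ ≤ n → 1000 ≤ r A n) → ∀ N : ℕ, ∃ n, N ≤ n ∧ 1064 ≤ r A n := by
    rintro A ⟨n₀, h⟩ N
    obtain ⟨n, hn, h2⟩ := general A 1000 n₀ h N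
    refine ⟨n, hn, ?_⟩
    have h3 : (31.6 : ℝ) ≤ √((1000 : ℕ) : ℝ) := by
      apply Real.le_sqrt_of_sq_le
      norm_num
    have h4 : (1063 : ℝ) < r A n := by
      push_cast at h2 h3
      linarith
    have h5 : 1063 < r A n := by exact_mod_cast h4
    omega
  refine ⟨fun A h => ⟨?_, key A h⟩, fun A k ⟨n₀, h⟩ N => general A k n₀ h N⟩
  obtain ⟨n, _, h2⟩ := key A h 0
  exact ⟨n, by omega⟩

end Pool.Agent.Results.MP_eaae5b_nt.ManyRepresentations
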